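import Pool.Agent.H63.WS.Stm

/-!
# Project WS of helper63: the inequality `S_CONV`
-/

set_option autoImplicit false

namespace Pool.Agent.H596.WS

open Finset Real Pool.Agent.H63.WS

lemma zcos_le_sin {z : ℝ} (h0 : 0 < z) (h1 : z < π) : z * cos z ≤ sin z := by
  rcases lt_or_ge z (π / 2) with h | h
  · have h2 := Real.lt_tan h0 h
    have hc : 0 < cos z := Real.cos_pos_of_mem_Ioo ⟨by linarith, h⟩
    rw [Real.tan_eq_sin_div_cos, lt_div_iff₀ hc] at h2
    exact h2.le
  · have hc : cos z ≤ 0 := Real.cos_nonpos_of_pi_div_two_le_of_le h (by linarith [Real.pi_pos])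
    have hs : 0 ≤ sin z := (Real.sin_pos_of_pos_of_lt_pi h0 h1).le
    nlinarith

lemma ratio {A B : ℝ} (hA : 0 < A) (hAB : A ≤ B) (hB : B < π) : A * sin B ≤ B * sin A := by
  obtain ⟨D, rfl⟩ : ∃ D, B = A + D := ⟨B - A, by ring⟩
  have hD : 0 ≤ D := by linarith
  have hsA : 0 < sin A := Real.sin_pos_of_pos_of_lt_pi hA (by linarith)
  have hsD : 0 ≤ sin D := Real.sin_nonneg_of_nonneg_of_le_pi hD (by linarith)
  have h1 := zcos_le_sin hA (by linarith)
  have h2 : sin D ≤ D := Real.sin_le hD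
  have h3 : cos D ≤ 1 := Real.cos_le_one D
  rw [Real.sin_add]
  have h4 : A * cos A * sin D ≤ sin A * sin D := mul_le_mul_of_nonneg_right h1 hsD
  have h5 : sin A * sin D ≤ sin A * D := mul_le_mul_of_nonneg_left h2 hsA.le
  have h6 : 0 ≤ A * sin A * (1 - cos D) := mul_nonneg (mul_nonneg hA.le hsA.le) (by linarith)
  nlinarith

lemma key1 {A B : ℝ} (hA : 0 < A) (hAB : A < B) (hB : B < π) :
    A * sin (B - A) * sin B ≤ B * (B - A) * sin A := by
  have h1 := ratio hA hAB.le hB
  have hsA : 0 < sin A := Real.sin_pos_of_pos_of_lt_pi hA (by linarith)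
  have hsD : 0 ≤ sin (B - A) := Real.sin_nonneg_of_nonneg_of_le_pi (by linarith) (by linarith)
  have h2 : sin (B - A) ≤ B - A := Real.sin_le (by linarith)
  calc A * sin (B - A) * sin B = (A * sin B) * sin (B - A) := by ring
    _ ≤ (B * sin A) * sin (B - A) := mul_le_mul_of_nonneg_right h1 hsD
    _ ≤ (B * sin A) * (B - A) := mul_le_mul_of_nonneg_left h2 (mul_nonneg (by linarith) hsA.le)
    _ = B * (B - A) * sin A := by ring

lemma key2 {B D : ℝ} (hB : 0 < B) (hD : 0 < D) (h : B + D < π) :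
    B * D * sin (B + D) ≤ (B + D) * sin D * sin B := by
  have h1 := zcos_le_sin hB (by linarith)
  have h2 := zcos_le_sin hD (by linarith)
  have hsB : 0 < sin B := Real.sin_pos_of_pos_of_lt_pi hB (by linarith)
  have hsD : 0 < sin D := Real.sin_pos_of_pos_of_lt_pi hD (by linarith)
  rw [Real.sin_add]
  have h3 : (D * cos D) * (B * sin B) ≤ sin D * (B * sin B) :=
    mul_le_mul_of_nonneg_right h2 (mul_nonneg hB.le hsB.le)
  have h4 : (B * cos B) * (D * sin D) ≤ sin B * (D * sin D) :=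
    mul_le_mul_of_nonneg_right h1 (mul_nonneg hD.le hsD.le)
  nlinarith

/-- the primitive of `phi` -/
noncomputable def G (y : ℝ) : ℝ :=
  if y = 0 then -(1 / π ^ 2) else -(y / π) * (cos (π * y) / sin (π * y))

lemma G_zero : G 0 = -(1 / π ^ 2) := by rw [G, if_pos rfl]

lemma G_ne {y : ℝ} (h : y ≠ 0) : G y = -(y / π) * (cos (π * y) / sin (π * y)) := by
  rw [G, if_neg h]

lemma G_neg {y : ℝ} : G (-y) = G y := by
  by_cases h : y = 0
  · rw [h, neg_zero]
  · rw [G_ne h, G_ne (neg_ne_zero.2 h)]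
    have e : π * -y = -(π * y) := by ring
    rw [e, Real.cos_neg, Real.sin_neg, div_neg]
    ring

lemma phi_neg (y : ℝ) : phi (-y) = -phi y := by
  unfold phi
  have e : Real.pi * -y = -(Real.pi * y) := by ring
  rw [e, Real.cos_neg, Real.sin_neg, neg_sq]
  rw [mul_neg, div_neg]
  ring

lemma phi_zero : phi 0 = 0 := by
  unfold phi
  simp

lemma s_pos {y : ℝ} (h0 : 0 < y) (h1 : y < 1) : 0 < sin (π * y) :=
  Real.sin_pos_of_pos_of_lt_pi (mul_pos Real.pi_pos h0) (by nlinarith [Real.pi_pos])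

lemma phi_nonneg {y : ℝ} (h0 : 0 < y) (h1 : y < 1) : 0 ≤ phi y := by
  have hs := s_pos h0 h1
  have hy : 0 < π * y := mul_pos Real.pi_pos h0
  have e : phi y = (π * y - sin (π * y) * cos (π * y)) / (π * sin (π * y) ^ 2) := by
    unfold phi
    have := Real.pi_pos.ne'
    field_simp
  rw [e]
  apply div_nonneg _ (by positivity)
  have h2 : sin (π * y) ≤ π * y := Real.sin_le hy.le
  have h3 : cos (π * y) ≤ 1 := Real.cos_le_one _
  nlinarith

lemma ident {a b : ℝ} (ha0 : 0 < a) (ha1 : a < 1) (hb0 : 0 < b) (hb1 : b < 1) :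
    (b - a) * phi b - (G b - G a) =
      ((π * b) * (π * b - π * a) * sin (π * a) -
        (π * a) * sin (π * b - π * a) * sin (π * b)) /
        (π ^ 2 * sin (π * b) ^ 2 * sin (π * a)) := by
  have hsa := (s_pos ha0 ha1).ne'
  have hsb := (s_pos hb0 hb1).ne'
  have hp := Real.pi_pos.ne'
  rw [G_ne ha0.ne', G_ne hb0.ne', Real.sin_sub]
  unfold phi
  generalize sin (π * a) = sa at *
  generalize sin (π * b) = sb at *
  generalize cos (π * a) = ca at *
  generalize cos (π * b) = cb at *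
  field_simp
  ring

lemma K_pos {a b : ℝ} (ha0 : 0 < a) (ha1 : a < 1) (hb0 : 0 < b) (hb1 : b < 1) :
    G b - G a ≤ (b - a) * phi b := by
  have hsa := s_pos ha0 ha1
  have hsb := s_pos hb0 hb1
  have hp := Real.pi_pos
  suffices h : 0 ≤ (b - a) * phi b - (G b - G a) by linarith
  rw [ident ha0 ha1 hb0 hb1]
  apply div_nonneg _ (by positivity)
  have hA : 0 < π * a := mul_pos hp ha0
  have hB : 0 < π * b := mul_pos hp hb0
  have hA1 : π * a < π := by nlinarith
  have hB1 : π * b < π := by nlinarith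
  rcases lt_trichotomy a b with h | h | h
  · have h1 := key1 hA (mul_lt_mul_of_pos_left h hp) hB1
    linarith
  · rw [h]
    simp
  · have h1 := key2 hB (D := π * a - π * b) (by nlinarith) (by linarith)
    have e1 : π * b + (π * a - π * b) = π * a := by ring
    have e2 : sin (π * b - π * a) = -sin (π * a - π * b) := by
      rw [← Real.sin_neg]
      congr 1
      ring
    rw [e1] at h1
    rw [e2]
    nlinarith

lemma K {a b : ℝ} (ha : -1 < a) (hab : a < b) (hb : b < 1) : G b - G a ≤ (b - a) * phi b := by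
  have hp := Real.pi_pos
  rcases lt_trichotomy b 0 with hb0 | hb0 | hb0
  · have h1 := K_pos (a := -a) (b := -b) (by linarith) (by linarith) (by linarith) (by linarith)
    rw [G_neg, G_neg, phi_neg] at h1
    linarith
  · subst hb0
    have ha' : 0 < -a := by linarith
    have hs := s_pos ha' (by linarith)
    have h2 := zcos_le_sin (mul_pos hp ha') (by nlinarith)
    rw [phi_zero, mul_zero, G_zero, ← G_neg (y := a), G_ne ha'.ne']
    have h3 : -(1 / π ^ 2) - -(-a / π) * (cos (π * -a) / sin (π * -a)) =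
        (π * -a * cos (π * -a) - sin (π * -a)) / (π ^ 2 * sin (π * -a)) := by
      have h4 := hs.ne'
      have h5 := hp.ne'
      generalize sin (π * -a) = sa at *
      generalize cos (π * -a) = ca at *
      field_simp
      ring
    rw [h3]
    exact div_nonpos_of_nonpos_of_nonneg (by linarith) (by positivity)
  · rcases lt_trichotomy a 0 with ha0 | ha0 | ha0
    · have h1 := K_pos (a := -a) (b := b) (by linarith) (by linarith) hb0 hb
      rw [G_neg] at h1
      have h2 := phi_nonneg hb0 hb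
      nlinarith
    · subst ha0
      have hs := s_pos hb0 hb
      have h1 : sin (π * b) ≤ π * b := Real.sin_le (mul_pos hp hb0).le
      rw [G_zero, G_ne hb0.ne']
      have h3 : (b - 0) * phi b - (-(b / π) * (cos (π * b) / sin (π * b)) - -(1 / π ^ 2)) =
          ((π * b) ^ 2 - sin (π * b) ^ 2) / (π ^ 2 * sin (π * b) ^ 2) := by
        unfold phi
        have h4 := hs.ne'
        have h5 := hp.ne'
        generalize sin (π * b) = sa at *
        generalize cos (π * b) = ca at *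
        field_simp
        ring
      have h4 : 0 ≤ ((π * b) ^ 2 - sin (π * b) ^ 2) / (π ^ 2 * sin (π * b) ^ 2) := by
        apply div_nonneg _ (by positivity)
        nlinarith
      linarith
    · exact K_pos ha0 (by linarith) hb0 hb

/-- the left inequality -/
lemma left {M : ℕ} {x : ℝ} (hM : 1 ≤ M) (h0 : 0 < x) (h1 : x < 1) :
    0 ≤ ∑ m ∈ range M, phi (x - (m : ℝ) / M) +
      M / π * (cos (π * x) / sin (π * x)) := by
  have hMr : (0 : ℝ) < M := by exact_mod_cast hM
  have hp := Real.pi_pos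
  have h2 : ∑ m ∈ range M, (G (x - (m : ℝ) / M) - G (x - ((m + 1 : ℕ) : ℝ) / M)) =
      G (x - ((0 : ℕ) : ℝ) / M) - G (x - (M : ℝ) / M) :=
    Finset.sum_range_sub' (fun m : ℕ => G (x - (m : ℝ) / M)) M
  have h3 : ∑ m ∈ range M, (G (x - (m : ℝ) / M) - G (x - ((m + 1 : ℕ) : ℝ) / M)) ≤
      ∑ m ∈ range M, 1 / M * phi (x - (m : ℝ) / M) := by
    refine sum_le_sum fun m hm => ?_
    rw [mem_range] at hm
    have hm1 : ((m + 1 : ℕ) : ℝ) ≤ M := by exact_mod_cast hm
    have h4 : ((m + 1 : ℕ) : ℝ) / M ≤ 1 := (div_le_one hMr).2 hm1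
    have h5 : (0 : ℝ) ≤ (m : ℝ) / M := by positivity
    have h6 : ((m + 1 : ℕ) : ℝ) / M = (m : ℝ) / M + 1 / M := by
      push_cast
      ring
    have h7 : (0 : ℝ) < 1 / M := by positivity
    have h8 := K (a := x - ((m + 1 : ℕ) : ℝ) / M) (b := x - (m : ℝ) / M) (by linarith)
      (by linarith) (by linarith)
    have h9 : x - (m : ℝ) / M - (x - ((m + 1 : ℕ) : ℝ) / M) = 1 / M := by rw [h6]; ring
    rw [h9] at h8
    exact h8
  rw [h2, ← mul_sum, Nat.cast_zero, zero_div, sub_zero, div_self hMr.ne', G_ne h0.ne',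
    G_ne (by linarith : x - 1 ≠ 0)] at h3
  have e1 : π * (x - 1) = π * x - π := by ring
  rw [e1, Real.cos_sub_pi, Real.sin_sub_pi, neg_div_neg_eq] at h3
  have e2 : -(x / π) * (cos (π * x) / sin (π * x)) -
      -((x - 1) / π) * (cos (π * x) / sin (π * x)) = -(1 / π) * (cos (π * x) / sin (π * x)) := by
    ring
  rw [e2] at h3
  have h4 := mul_le_mul_of_nonneg_left h3 hMr.le
  have e3 : (M : ℝ) * (1 / M * ∑ m ∈ range M, phi (x - (m : ℝ) / M)) =
      ∑ m ∈ range M, phi (x - (m : ℝ) / M) := by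
    field_simp
  rw [e3] at h4
  have e4 : (M : ℝ) / π * (cos (π * x) / sin (π * x)) =
      -(M * (-(1 / π) * (cos (π * x) / sin (π * x)))) := by ring
  rw [e4]
  linarith

lemma phi_one_sub {x : ℝ} (h0 : 0 < x) (h1 : x < 1) :
    phi (1 - x) = 1 / sin (π * x) ^ 2 - phi x := by
  have hs := (s_pos h0 h1).ne'
  have hp := Real.pi_pos.ne'
  unfold phi
  have e : π * (1 - x) = π - π * x := by ring
  rw [e, Real.sin_pi_sub, Real.cos_pi_sub]
  field_simp
  ring

lemma symm {M : ℕ} {x : ℝ} (hM : 1 ≤ M) (h0 : 0 < x) (h1 : x < 1) :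
    ∑ m ∈ range M, phi (1 - x - (m : ℝ) / M) =
      1 / sin (π * x) ^ 2 - ∑ m ∈ range M, phi (x - (m : ℝ) / M) := by
  obtain ⟨K, rfl⟩ : ∃ K, M = K + 1 := ⟨M - 1, by omega⟩
  rw [sum_range_succ', sum_range_succ' (fun m : ℕ => phi (x - (m : ℝ) / ((K + 1 : ℕ) : ℝ)))]
  rw [Nat.cast_zero, zero_div, sub_zero, sub_zero, phi_one_sub h0 h1]
  have h2 : ∑ k ∈ range K, phi (1 - x - ((k + 1 : ℕ) : ℝ) / ((K + 1 : ℕ) : ℝ)) =
      -∑ k ∈ range K, phi (x - ((k + 1 : ℕ) : ℝ) / ((K + 1 : ℕ) : ℝ)) := by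
    rw [← sum_range_reflect (fun k => phi (x - ((k + 1 : ℕ) : ℝ) / ((K + 1 : ℕ) : ℝ))) K,
      ← sum_neg_distrib]
    refine sum_congr rfl fun k hk => ?_
    rw [mem_range] at hk
    rw [← phi_neg]
    congr 1
    have hK : ((K - 1 - k + 1 : ℕ) : ℝ) = (K : ℝ) - k := by
      have : K - 1 - k + 1 = K - k := by omega
      rw [this, Nat.cast_sub hk.le]
    rw [hK]
    have hK1 : ((K + 1 : ℕ) : ℝ) ≠ 0 := by positivity
    push_cast at hK1 ⊢
    field_simp
    ring
  rw [h2]
  ring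

theorem t_conv : S_CONV := by
  intro M x hM h0 h1
  refine ⟨left hM h0 h1, ?_⟩
  have h2 := left (x := 1 - x) hM (by linarith) (by linarith)
  rw [symm hM h0 h1] at h2
  have e : π * (1 - x) = π - π * x := by ring
  rw [e, Real.sin_pi_sub, Real.cos_pi_sub] at h2
  have e2 : (M : ℝ) / π * (-cos (π * x) / sin (π * x)) =
      -((M : ℝ) / π * (cos (π * x) / sin (π * x))) := by ring
  rw [e2] at h2
  linarith

end Pool.Agent.H596.WS
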